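import Pool.Agent.Q130.UP.Defs
import Pool.Agent.Q130.SC.Diffeo

/-!
A symplectic map of `ℝ⁶` which is `C¹`-close to the identity on the torus bundle
`T = {|z₁| = 1, |z₂| = 2, z₃ ∈ [-1/2, 1/2]}` maps some point of `T` to a point with `|z₁| = 1`,
`|z₂| = 2`, `Re z₃ = 0`.
-/

set_option autoImplicit false

open Set Filter Topology
open scoped ContDiff ComplexConjugate

noncomputable section

namespace Pool.Agent.Q130.UP

/-- coordinate functions -/
def X1 : V →L[ℝ] ℝ := Complex.reCLM.comp (ContinuousLinearMap.fst ℝ ℂ (ℂ × ℂ))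
def Y1 : V →L[ℝ] ℝ := Complex.imCLM.comp (ContinuousLinearMap.fst ℝ ℂ (ℂ × ℂ))
def X2 : V →L[ℝ] ℝ := Complex.reCLM.comp ((ContinuousLinearMap.fst ℝ ℂ ℂ).comp
  (ContinuousLinearMap.snd ℝ ℂ (ℂ × ℂ)))
def Y2 : V →L[ℝ] ℝ := Complex.imCLM.comp ((ContinuousLinearMap.fst ℝ ℂ ℂ).comp
  (ContinuousLinearMap.snd ℝ ℂ (ℂ × ℂ)))
def X3 : V →L[ℝ] ℝ := Complex.reCLM.comp ((ContinuousLinearMap.snd ℝ ℂ ℂ).comp
  (ContinuousLinearMap.snd ℝ ℂ (ℂ × ℂ)))
def Y3 : V →L[ℝ] ℝ := Complex.imCLM.comp ((ContinuousLinearMap.snd ℝ ℂ ℂ).comp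
  (ContinuousLinearMap.snd ℝ ℂ (ℂ × ℂ)))

/-- the Liouville form `λ_z(v) = B z v` -/
def B : V →L[ℝ] V →L[ℝ] ℝ :=
  (1 / 2 : ℝ) • (X1.smulRight Y1 - Y1.smulRight X1) +
    (1 / 2 : ℝ) • (X2.smulRight Y2 - Y2.smulRight X2) + X3.smulRight Y3

theorem B_apply (u v : V) : B u v = 1 / 2 * (u.1.re * v.1.im - u.1.im * v.1.re) +
    1 / 2 * (u.2.1.re * v.2.1.im - u.2.1.im * v.2.1.re) + u.2.2.re * v.2.2.im := by
  simp [B, X1, Y1, X2, Y2, X3, Y3]

theorem B_sub (u v : V) : B u v - B v u = omega u v := by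
  rw [B_apply, B_apply, omega]; ring

/-- the form `ψ^* λ - λ` -/
def eta (ψ : V → V) (x : V) : V →L[ℝ] ℝ := (B (ψ x)).comp (fderiv ℝ ψ x) - B x

theorem exists_primitive (ψ : V → V) (hψ : ContDiff ℝ ∞ ψ)
    (hs : ∀ x u v, omega (fderiv ℝ ψ x u) (fderiv ℝ ψ x v) = omega u v) :
    ∃ F : V → ℝ, ContDiff ℝ 1 F ∧
      ∀ x v, fderiv ℝ F x v = B (ψ x) (fderiv ℝ ψ x v) - B x v := by
  have hψ1 : Differentiable ℝ ψ := hψ.differentiable (by simp)
  have hψ2 : ContDiff ℝ ∞ (fderiv ℝ ψ) := hψ.fderiv_right (by simp)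
  have hd : ∀ x, HasFDerivAt (eta ψ)
      ((ContinuousLinearMap.compL ℝ V V ℝ (B (ψ x))).comp (fderiv ℝ (fderiv ℝ ψ) x) +
        ((ContinuousLinearMap.compL ℝ V V ℝ).flip (fderiv ℝ ψ x)).comp
          (B.comp (fderiv ℝ ψ x)) - B) x := by
    intro x
    have h1 : HasFDerivAt (fun y => B (ψ y)) (B.comp (fderiv ℝ ψ x)) x :=
      B.hasFDerivAt.comp x (hψ1 x).hasFDerivAt
    have h2 : HasFDerivAt (fderiv ℝ ψ) (fderiv ℝ (fderiv ℝ ψ) x) x :=
      ((hψ2.differentiable (by simp)) x).hasFDerivAt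
    exact (h1.clm_comp h2).sub B.hasFDerivAt
  have hcont : Continuous (eta ψ) :=
    continuous_iff_continuousAt.2 fun x => (hd x).continuousAt
  have hdiff : DifferentiableOn ℝ (eta ψ) univ :=
    fun x _ => (hd x).differentiableAt.differentiableWithinAt
  obtain ⟨F, hF⟩ := Convex.exists_forall_hasFDerivAt_of_fderiv_symmetric
    convex_univ isOpen_univ hdiff
    (fun x _ u v => by
      rw [(hd x).fderiv]
      have hsym : fderiv ℝ (fderiv ℝ ψ) x u v = fderiv ℝ (fderiv ℝ ψ) x v u :=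
        (hψ.contDiffAt.isSymmSndFDerivAt (by
          simp only [minSmoothness_of_isRCLikeNormedField]
          exact WithTop.coe_le_coe.2 le_top)).eq u v
      have := hs x u v
      rw [← B_sub, ← B_sub u v] at this
      simp only [sub_apply, add_apply,
        ContinuousLinearMap.comp_apply, ContinuousLinearMap.compL_apply,
        ContinuousLinearMap.flip_apply]
      rw [hsym]
      linarith)
  refine ⟨F, ?_, fun x v => ?_⟩
  · exact contDiff_one_iff_hasFDerivAt.2 ⟨eta ψ, hcont, fun x => hF x (mem_univ x)⟩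
  · rw [(hF x (mem_univ x)).fderiv]; rfl

/-- the parametrised torus bundle -/
def io (q : ℝ × ℝ × ℝ) : V :=
  (Complex.exp (q.1 * Complex.I), 2 * Complex.exp (q.2.1 * Complex.I), (q.2.2 : ℂ))

/-- the derivative of `io` -/
def dio (q v : ℝ × ℝ × ℝ) : V :=
  (Complex.exp (q.1 * Complex.I) * (v.1 * Complex.I),
    2 * (Complex.exp (q.2.1 * Complex.I) * (v.2.1 * Complex.I)), (v.2.2 : ℂ))

theorem contDiff_io : ContDiff ℝ ∞ io := by
  unfold io
  have hof : ContDiff ℝ ∞ (fun x : ℝ => (x : ℂ)) := Complex.ofRealCLM.contDiff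
  have h1 : ContDiff ℝ ∞ (fun q : ℝ × ℝ × ℝ => (q.1 : ℂ)) := hof.comp contDiff_fst
  have h2 : ContDiff ℝ ∞ (fun q : ℝ × ℝ × ℝ => (q.2.1 : ℂ)) :=
    hof.comp (contDiff_fst.comp contDiff_snd)
  have h3 : ContDiff ℝ ∞ (fun q : ℝ × ℝ × ℝ => (q.2.2 : ℂ)) :=
    hof.comp (contDiff_snd.comp contDiff_snd)
  exact ((h1.mul contDiff_const).cexp).prodMk
    ((contDiff_const.mul ((h2.mul contDiff_const).cexp)).prodMk h3)

theorem hasDerivAt_lin (a b : ℝ) : HasDerivAt (fun t : ℝ => ((a + t * b : ℝ) : ℂ)) (b : ℂ) 0 := by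
  have h1 : HasDerivAt (fun t : ℝ => a + t * b) b 0 := by
    simpa using ((hasDerivAt_id (0 : ℝ)).mul_const b).const_add a
  exact h1.ofReal_comp

theorem hasDerivAt_io (q v : ℝ × ℝ × ℝ) :
    HasDerivAt (fun t : ℝ => io (q.1 + t * v.1, q.2.1 + t * v.2.1, q.2.2 + t * v.2.2))
      (dio q v) 0 := by
  have h1 := ((hasDerivAt_lin q.1 v.1).mul_const Complex.I).cexp
  have h2 := (((hasDerivAt_lin q.2.1 v.2.1).mul_const Complex.I).cexp).const_mul (2 : ℂ)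
  have h3 := hasDerivAt_lin q.2.2 v.2.2
  have h := h1.prodMk (h2.prodMk h3)
  simp only [zero_mul, add_zero] at h
  exact h

/-- the rotated components of the image -/
def W1 (ψ : V → V) (q : ℝ × ℝ × ℝ) : ℂ := (ψ (io q)).1 * Complex.exp (-(q.1 * Complex.I))
def W2 (ψ : V → V) (q : ℝ × ℝ × ℝ) : ℂ := (ψ (io q)).2.1 * Complex.exp (-(q.2.1 * Complex.I))

/-- the function to be maximised -/
def G (ψ : V → V) (F : V → ℝ) (q : ℝ × ℝ × ℝ) : ℝ :=
  F (io q) - (1 / 2 : ℝ) * (Complex.log (W1 ψ q)).im - 2 * (Complex.log (W2 ψ q)).im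

theorem contDiff_W1 {ψ : V → V} (hψ : ContDiff ℝ ∞ ψ) : ContDiff ℝ ∞ (W1 ψ) := by
  have hof : ContDiff ℝ ∞ (fun x : ℝ => (x : ℂ)) := Complex.ofRealCLM.contDiff
  have h1 : ContDiff ℝ ∞ (fun q : ℝ × ℝ × ℝ => (q.1 : ℂ)) := hof.comp contDiff_fst
  have h2 : ContDiff ℝ ∞ (fun q : ℝ × ℝ × ℝ => (ψ (io q)).1) :=
    contDiff_fst.comp (hψ.comp contDiff_io)
  exact h2.mul ((h1.mul contDiff_const).neg.cexp)

theorem contDiff_W2 {ψ : V → V} (hψ : ContDiff ℝ ∞ ψ) : ContDiff ℝ ∞ (W2 ψ) := by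
  have hof : ContDiff ℝ ∞ (fun x : ℝ => (x : ℂ)) := Complex.ofRealCLM.contDiff
  have h1 : ContDiff ℝ ∞ (fun q : ℝ × ℝ × ℝ => (q.2.1 : ℂ)) :=
    hof.comp (contDiff_fst.comp contDiff_snd)
  have h2 : ContDiff ℝ ∞ (fun q : ℝ × ℝ × ℝ => (ψ (io q)).2.1) :=
    contDiff_fst.comp (contDiff_snd.comp (hψ.comp contDiff_io))
  exact h2.mul ((h1.mul contDiff_const).neg.cexp)

theorem contDiffAt_log_comp {f : ℝ × ℝ × ℝ → ℂ} (hf : ContDiff ℝ ∞ f) {q : ℝ × ℝ × ℝ}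
    (h : f q ∈ Complex.slitPlane) : ContDiffAt ℝ 1 (fun q => (Complex.log (f q)).im) q := by
  have h1 : ContDiffAt ℝ 1 Complex.log (f q) :=
    ((Complex.contDiffAt_log h (n := 1)).restrict_scalars ℝ)
  exact Complex.imCLM.contDiff.contDiffAt.comp q
    (h1.comp q ((hf.of_le (by norm_cast)).contDiffAt))

theorem contDiffAt_G {ψ : V → V} (hψ : ContDiff ℝ ∞ ψ) {F : V → ℝ} (hF : ContDiff ℝ 1 F)
    {q : ℝ × ℝ × ℝ} (h1 : W1 ψ q ∈ Complex.slitPlane) (h2 : W2 ψ q ∈ Complex.slitPlane) :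
    ContDiffAt ℝ 1 (G ψ F) q := by
  have h3 : ContDiffAt ℝ 1 (fun q => F (io q)) q :=
    (hF.comp (contDiff_io.of_le (by norm_cast))).contDiffAt
  exact (h3.sub (contDiffAt_const.mul (contDiffAt_log_comp (contDiff_W1 hψ) h1))).sub
    (contDiffAt_const.mul (contDiffAt_log_comp (contDiff_W2 hψ) h2))

/-- the derivative of `ψ ∘ io` -/
def dZ (ψ : V → V) (q v : ℝ × ℝ × ℝ) : V := fderiv ℝ ψ (io q) (dio q v)

/-- the line through `q` in the direction `v` -/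
def ln (q v : ℝ × ℝ × ℝ) (t : ℝ) : ℝ × ℝ × ℝ := (q.1 + t * v.1, q.2.1 + t * v.2.1, q.2.2 + t * v.2.2)

theorem ln_zero (q v : ℝ × ℝ × ℝ) : ln q v 0 = q := by simp [ln]

theorem hasDerivAt_ln (q v : ℝ × ℝ × ℝ) : HasDerivAt (ln q v) v 0 := by
  have h (a b : ℝ) : HasDerivAt (fun t : ℝ => a + t * b) b 0 := by
    simpa using ((hasDerivAt_id (0 : ℝ)).mul_const b).const_add a
  exact (h _ _).prodMk ((h _ _).prodMk (h _ _))

theorem hasDerivAt_Z {ψ : V → V} (hψ : ContDiff ℝ ∞ ψ) (q v : ℝ × ℝ × ℝ) :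
    HasDerivAt (fun t => ψ (io (ln q v t))) (dZ ψ q v) 0 := by
  have h1 : HasFDerivAt ψ (fderiv ℝ ψ (io (ln q v 0))) (io (ln q v 0)) :=
    ((hψ.differentiable (by simp)) _).hasFDerivAt
  have h2 := h1.comp_hasDerivAt (0 : ℝ) (hasDerivAt_io q v)
  rw [ln_zero] at h2
  exact h2

theorem im_div_aux (Z dz w : ℂ) (t : ℝ) (hZ : Z ≠ 0) (hw : w ≠ 0) :
    ((dz * w + Z * (w * -(t * Complex.I))) / (Z * w)).im =
      (conj Z * dz).im / Complex.normSq Z - t := by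
  have h1 : (dz * w + Z * (w * -(t * Complex.I))) / (Z * w) = dz / Z - t * Complex.I := by
    field_simp
    ring
  rw [h1, Complex.sub_im, Complex.div_im]
  simp only [Complex.mul_im, Complex.conj_re, Complex.conj_im, Complex.ofReal_re, Complex.I_im,
    Complex.ofReal_im, Complex.I_re]
  have : Complex.normSq Z ≠ 0 := (Complex.normSq_eq_zero.not).2 hZ
  field_simp
  ring

theorem hasDerivAt_log1 {ψ : V → V} (hψ : ContDiff ℝ ∞ ψ) (q v : ℝ × ℝ × ℝ)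
    (h1 : W1 ψ q ∈ Complex.slitPlane) :
    HasDerivAt (fun t => (Complex.log (W1 ψ (ln q v t))).im)
      ((conj (ψ (io q)).1 * (dZ ψ q v).1).im / Complex.normSq (ψ (io q)).1 - v.1) 0 := by
  have hZ : HasDerivAt (fun t => (ψ (io (ln q v t))).1) (dZ ψ q v).1 0 :=
    (ContinuousLinearMap.fst ℝ ℂ (ℂ × ℂ)).hasFDerivAt.comp_hasDerivAt (0 : ℝ) (hasDerivAt_Z hψ q v)
  have he : HasDerivAt (fun t : ℝ => Complex.exp (-(((ln q v t).1 : ℝ) * Complex.I)))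
      (Complex.exp (-(q.1 * Complex.I)) * -(v.1 * Complex.I)) 0 := by
    have := ((hasDerivAt_lin q.1 v.1).mul_const Complex.I).neg.cexp
    simp only [Pi.neg_apply, zero_mul, add_zero] at this
    exact this
  have hW := hZ.mul he
  have hW0 : W1 ψ (ln q v 0) ∈ Complex.slitPlane := by rw [ln_zero]; exact h1
  have hl := (hW.clog_real hW0)
  have hi := Complex.imCLM.hasFDerivAt.comp_hasDerivAt (0 : ℝ) hl
  have hne : W1 ψ q ≠ 0 := Complex.slitPlane_ne_zero h1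
  have hne' : (ψ (io q)).1 ≠ 0 := fun h => hne (by simp [W1, h])
  refine hi.congr_deriv ?_
  simp only [ln_zero, Pi.mul_apply]
  exact im_div_aux _ _ _ _ hne' (Complex.exp_ne_zero _)

theorem hasDerivAt_log2 {ψ : V → V} (hψ : ContDiff ℝ ∞ ψ) (q v : ℝ × ℝ × ℝ)
    (h1 : W2 ψ q ∈ Complex.slitPlane) :
    HasDerivAt (fun t => (Complex.log (W2 ψ (ln q v t))).im)
      ((conj (ψ (io q)).2.1 * (dZ ψ q v).2.1).im / Complex.normSq (ψ (io q)).2.1 - v.2.1) 0 := by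
  have hZ : HasDerivAt (fun t => (ψ (io (ln q v t))).2.1) (dZ ψ q v).2.1 0 :=
    ((ContinuousLinearMap.fst ℝ ℂ ℂ).comp
      (ContinuousLinearMap.snd ℝ ℂ (ℂ × ℂ))).hasFDerivAt.comp_hasDerivAt (0 : ℝ)
        (hasDerivAt_Z hψ q v)
  have he : HasDerivAt (fun t : ℝ => Complex.exp (-(((ln q v t).2.1 : ℝ) * Complex.I)))
      (Complex.exp (-(q.2.1 * Complex.I)) * -(v.2.1 * Complex.I)) 0 := by
    have := ((hasDerivAt_lin q.2.1 v.2.1).mul_const Complex.I).neg.cexp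
    simp only [Pi.neg_apply, zero_mul, add_zero] at this
    exact this
  have hW := hZ.mul he
  have hW0 : W2 ψ (ln q v 0) ∈ Complex.slitPlane := by rw [ln_zero]; exact h1
  have hl := (hW.clog_real hW0)
  have hi := Complex.imCLM.hasFDerivAt.comp_hasDerivAt (0 : ℝ) hl
  have hne : W2 ψ q ≠ 0 := Complex.slitPlane_ne_zero h1
  have hne' : (ψ (io q)).2.1 ≠ 0 := fun h => hne (by simp [W2, h])
  refine hi.congr_deriv ?_
  simp only [ln_zero, Pi.mul_apply]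
  exact im_div_aux _ _ _ _ hne' (Complex.exp_ne_zero _)

theorem fderiv_G {ψ : V → V} (hψ : ContDiff ℝ ∞ ψ) {F : V → ℝ} (hF : ContDiff ℝ 1 F)
    (hF' : ∀ x v, fderiv ℝ F x v = B (ψ x) (fderiv ℝ ψ x v) - B x v) {q : ℝ × ℝ × ℝ}
    (h1 : W1 ψ q ∈ Complex.slitPlane) (h2 : W2 ψ q ∈ Complex.slitPlane) (v : ℝ × ℝ × ℝ) :
    fderiv ℝ (G ψ F) q v =
      (1 / 2 - 1 / 2 / Complex.normSq (ψ (io q)).1) * (conj (ψ (io q)).1 * (dZ ψ q v).1).im +
      (1 / 2 - 2 / Complex.normSq (ψ (io q)).2.1) * (conj (ψ (io q)).2.1 * (dZ ψ q v).2.1).im +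
      (ψ (io q)).2.2.re * (dZ ψ q v).2.2.im := by
  have hG : HasFDerivAt (G ψ F) (fderiv ℝ (G ψ F) q) (ln q v 0) := by
    rw [ln_zero]
    exact ((contDiffAt_G hψ hF h1 h2).differentiableAt (by simp)).hasFDerivAt
  have hL := hG.comp_hasDerivAt (0 : ℝ) (hasDerivAt_ln q v)
  have hFd : HasFDerivAt F (fderiv ℝ F (io q)) (io (ln q v 0)) := by
    rw [ln_zero]; exact ((hF.differentiable (by simp)) _).hasFDerivAt
  have hR := ((hFd.comp_hasDerivAt (0 : ℝ) (hasDerivAt_io q v)).sub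
    ((hasDerivAt_log1 hψ q v h1).const_mul (1 / 2 : ℝ))).sub
    ((hasDerivAt_log2 hψ q v h2).const_mul (2 : ℝ))
  have huniq := hL.unique hR
  rw [huniq, hF']
  have hB : B (io q) (dio q v) = 1 / 2 * v.1 + 2 * v.2.1 := by
    rw [B_apply, io, dio]
    have e1 : Complex.exp (q.1 * Complex.I) =
        Complex.cos q.1 + Complex.sin q.1 * Complex.I := Complex.exp_mul_I _
    have e2 : Complex.exp (q.2.1 * Complex.I) =
        Complex.cos q.2.1 + Complex.sin q.2.1 * Complex.I := Complex.exp_mul_I _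
    rw [e1, e2]
    simp only [← Complex.ofReal_cos, ← Complex.ofReal_sin, Complex.add_re, Complex.add_im,
      Complex.mul_re, Complex.mul_im, Complex.ofReal_re, Complex.ofReal_im, Complex.I_re,
      Complex.I_im, Complex.re_ofNat, Complex.im_ofNat, mul_zero, mul_one, zero_mul, sub_zero,
      add_zero, zero_add, sub_self]
    have s1 := Real.sin_sq_add_cos_sq q.1
    have s2 := Real.sin_sq_add_cos_sq q.2.1
    linear_combination (1 / 2 * v.1) * s1 + (2 * v.2.1) * s2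
  rw [hB, B_apply]
  simp only [dZ, Complex.mul_im, Complex.conj_re, Complex.conj_im]
  ring

end Pool.Agent.Q130.UP
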