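import Mathlib

/-!
Definitions for `MP_e888d6_gt`: the symplectic space `ℝ⁶ = ℂ³`, Hamiltonian diffeomorphisms, closed
submanifolds given by two regular equations, and the submanifold `T² × S²` of the counterexample.
-/

set_option autoImplicit false

open Set Filter Topology
open scoped ContDiff

noncomputable section

namespace Pool.Agent.Q130.UP

/-- `ℝ⁶ = ℂ³` -/
abbrev V : Type := ℂ × ℂ × ℂ

/-- the standard symplectic form `dx₁ ∧ dy₁ + dx₂ ∧ dy₂ + dx₃ ∧ dy₃` -/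
def omega (u v : V) : ℝ :=
  (u.1.re * v.1.im - u.1.im * v.1.re) + (u.2.1.re * v.2.1.im - u.2.1.im * v.2.1.re) +
    (u.2.2.re * v.2.2.im - u.2.2.im * v.2.2.re)

/-- the derivative of the function `h` at `x` in the direction `v` -/
def dH (h : V → ℝ) (x v : V) : ℝ := fderiv ℝ h x v

/-- `H` is a smooth time dependent Hamiltonian -/
def SmoothHam (H : ℝ → V → ℝ) : Prop := ContDiff ℝ ∞ (fun p : ℝ × V => H p.1 p.2)

/-- `ψ` is a smooth isotopy -/
def SmoothIsotopy (ψ : ℝ → V ≃ V) : Prop := ContDiff ℝ ∞ (fun p : ℝ × V => ψ p.1 p.2)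

/-- the Hamiltonian flow equation: the velocity `X` of `s ↦ ψ s x` at time `t` satisfies
`ω(X, v) = dH_t(v)` for all `v` -/
def FlowEq (H : ℝ → V → ℝ) (ψ : ℝ → V ≃ V) : Prop :=
  ∀ t x, ∃ X : V, HasDerivAt (fun s => ψ s x) X t ∧ ∀ v, omega X v = dH (H t) (ψ t x) v

/-- `φ` is a compactly supported Hamiltonian diffeomorphism of `ℝ⁶` -/
def IsHam (φ : V ≃ V) : Prop :=
  ∃ (H : ℝ → V → ℝ) (ψ : ℝ → V ≃ V), SmoothHam H ∧
    (∃ C : Set V, IsCompact C ∧ ∀ t x, x ∉ C → H t x = 0) ∧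
    SmoothIsotopy ψ ∧ FlowEq H ψ ∧ (∀ x, ψ 0 x = x) ∧ ∀ x, ψ 1 x = φ x

/-- the tangent space at `x` of the zero set of `(f, g)` -/
def tangent (f g : V → ℝ) (x : V) : Set V := {v | dH f x v = 0 ∧ dH g x v = 0}

end Pool.Agent.Q130.UP
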