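import Pool.Agent.Q130.UP.Inter

set_option autoImplicit false

open Set Filter Topology
open scoped ContDiff ComplexConjugate

noncomputable section

namespace Pool.Agent.Q130.UP

/-- the flow of a Hamiltonian consists of symplectic maps -/
theorem flow_symplectic {H : ℝ → V → ℝ} {ψ : ℝ → V ≃ V} (hH : SmoothHam H)
    (hψ : SmoothIsotopy ψ) (hf : FlowEq H ψ) (h0 : ∀ x, ψ 0 x = x) (t : ℝ) (x u v : V) :
    omega (fderiv ℝ (ψ t) x u) (fderiv ℝ (ψ t) x v) = omega u v := by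
  set Ψ : ℝ × V → V := fun p => ψ p.1 p.2 with hΨ
  have hΨs : ContDiff ℝ ∞ Ψ := hψ
  have hΨd : Differentiable ℝ Ψ := hΨs.differentiable (by simp)
  have hΨ2 : ContDiff ℝ ∞ (fderiv ℝ Ψ) := hΨs.fderiv_right (by simp)
  have hHt : ∀ t, ContDiff ℝ ∞ (H t) := fun t =>
    hH.comp ((contDiff_const (c := t)).prodMk contDiff_id)
  -- spatial derivative
  have hsp : ∀ t x u, fderiv ℝ (ψ t) x u = fderiv ℝ Ψ (t, x) (0, u) := by
    intro t x u
    have h1 : HasFDerivAt (fun y : V => (t, y)) (ContinuousLinearMap.inr ℝ ℝ V) x :=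
      hasFDerivAt_prodMk_right t x
    have h2 : HasFDerivAt (ψ t) ((fderiv ℝ Ψ (t, x)).comp (ContinuousLinearMap.inr ℝ ℝ V)) x :=
      ((hΨd (t, x)).hasFDerivAt).comp x h1
    rw [h2.fderiv]
    simp
  have htm : ∀ t x, HasDerivAt (fun s => ψ s x) (fderiv ℝ Ψ (t, x) (1, 0)) t := by
    intro t x
    have h1 : HasDerivAt (fun s : ℝ => (s, x)) ((1 : ℝ), (0 : V)) t :=
      (hasDerivAt_id t).prodMk (hasDerivAt_const t x)
    exact ((hΨd (t, x)).hasFDerivAt).comp_hasDerivAt t h1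
  have hfl : ∀ t x w, omega (fderiv ℝ Ψ (t, x) (1, 0)) w = fderiv ℝ (H t) (ψ t x) w := by
    intro t x w
    obtain ⟨X, hX, hX'⟩ := hf t x
    rw [(htm t x).unique hX, hX' w]
    rfl
  -- mixed derivative
  have hmix : ∀ t x u w, omega (fderiv ℝ (fderiv ℝ Ψ) (t, x) (0, u) (1, 0)) w =
      fderiv ℝ (fderiv ℝ (H t)) (ψ t x) (fderiv ℝ (ψ t) x u) w := by
    intro t x u w
    have h1 : HasDerivAt (fun s : ℝ => x + s • u) u 0 := by
      simpa using ((hasDerivAt_id (0 : ℝ)).smul_const u).const_add x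
    have h1' : HasDerivAt (fun s : ℝ => (t, x + s • u)) ((0 : ℝ), u) 0 :=
      (hasDerivAt_const 0 t).prodMk h1
    have e0 : x + (0 : ℝ) • u = x := by simp
    have h2 : HasDerivAt (fun s : ℝ => fderiv ℝ Ψ (t, x + s • u))
        (fderiv ℝ (fderiv ℝ Ψ) (t, x) (0, u)) 0 := by
      have : HasFDerivAt (fderiv ℝ Ψ) (fderiv ℝ (fderiv ℝ Ψ) (t, x)) (t, x + (0 : ℝ) • u) := by
        rw [e0]; exact ((hΨ2.differentiable (by simp)) _).hasFDerivAt
      exact this.comp_hasDerivAt (0 : ℝ) h1'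
    have h3 : HasDerivAt (fun s : ℝ => fderiv ℝ Ψ (t, x + s • u) (1, 0))
        (fderiv ℝ (fderiv ℝ Ψ) (t, x) (0, u) (1, 0)) 0 := by
      have := h2.clm_apply (hasDerivAt_const (0 : ℝ) ((1 : ℝ), (0 : V)))
      simpa using this
    have h4 : HasDerivAt (fun s : ℝ => omega (fderiv ℝ Ψ (t, x + s • u) (1, 0)) w)
        (omega (fderiv ℝ (fderiv ℝ Ψ) (t, x) (0, u) (1, 0)) w) 0 := by
      have e : ∀ a : V, omega a w = (B.flip w - B w) a := fun a => by
        rw [← B_sub]; simp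
      simp only [e]
      exact ((B.flip w - B w).hasFDerivAt).comp_hasDerivAt (0 : ℝ) h3
    have h5 : HasDerivAt (fun s : ℝ => ψ t (x + s • u)) (fderiv ℝ (ψ t) x u) 0 := by
      rw [hsp]
      have : HasFDerivAt Ψ (fderiv ℝ Ψ (t, x)) (t, x + (0 : ℝ) • u) := by
        rw [e0]; exact (hΨd _).hasFDerivAt
      exact this.comp_hasDerivAt (0 : ℝ) h1'
    have h6 : HasDerivAt (fun s : ℝ => fderiv ℝ (H t) (ψ t (x + s • u)) w)
        (fderiv ℝ (fderiv ℝ (H t)) (ψ t x) (fderiv ℝ (ψ t) x u) w) 0 := by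
      have hd2 : HasFDerivAt (fderiv ℝ (H t)) (fderiv ℝ (fderiv ℝ (H t)) (ψ t x))
          (ψ t (x + (0 : ℝ) • u)) := by
        rw [e0]
        exact ((((hHt t).fderiv_right (m := ∞) (by simp)).differentiable (by simp)) _).hasFDerivAt
      have := (hd2.comp_hasDerivAt (0 : ℝ) h5).clm_apply (hasDerivAt_const (0 : ℝ) w)
      simpa using this
    refine h4.unique ?_
    refine h6.congr_of_eventuallyEq (Eventually.of_forall fun s => ?_)
    exact hfl t (x + s • u) w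
  -- the derivative of the pull back of omega vanishes
  have hA : ∀ t u, HasDerivAt (fun s => fderiv ℝ (ψ s) x u)
      (fderiv ℝ (fderiv ℝ Ψ) (t, x) (0, u) (1, 0)) t := by
    intro t u
    have h1 : HasDerivAt (fun s : ℝ => (s, x)) ((1 : ℝ), (0 : V)) t :=
      (hasDerivAt_id t).prodMk (hasDerivAt_const t x)
    have h2 : HasDerivAt (fun s : ℝ => fderiv ℝ Ψ (s, x))
        (fderiv ℝ (fderiv ℝ Ψ) (t, x) (1, 0)) t :=
      ((hΨ2.differentiable (by simp)) (t, x)).hasFDerivAt.comp_hasDerivAt t h1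
    have h3 := h2.clm_apply (hasDerivAt_const t ((0 : ℝ), u))
    have hsym : fderiv ℝ (fderiv ℝ Ψ) (t, x) (1, 0) (0, u) =
        fderiv ℝ (fderiv ℝ Ψ) (t, x) (0, u) (1, 0) :=
      (hΨs.contDiffAt.isSymmSndFDerivAt (by
          simp only [minSmoothness_of_isRCLikeNormedField]
          exact WithTop.coe_le_coe.2 le_top)).eq _ _
    simp only [map_zero, add_zero] at h3
    rw [hsym] at h3
    simp only [hsp]
    exact h3
  have hconst : ∀ t, HasDerivAt (fun s => omega (fderiv ℝ (ψ s) x u) (fderiv ℝ (ψ s) x v)) 0 t := by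
    intro t
    have hu := hA t u
    have hv := hA t v
    have h1 : HasDerivAt (fun s => B (fderiv ℝ (ψ s) x u) (fderiv ℝ (ψ s) x v))
        (B (fderiv ℝ (fderiv ℝ Ψ) (t, x) (0, u) (1, 0)) (fderiv ℝ (ψ t) x v) +
          B (fderiv ℝ (ψ t) x u) (fderiv ℝ (fderiv ℝ Ψ) (t, x) (0, v) (1, 0))) t :=
      (B.hasFDerivAt.comp_hasDerivAt t hu).clm_apply hv
    have h2 : HasDerivAt (fun s => B (fderiv ℝ (ψ s) x v) (fderiv ℝ (ψ s) x u))
        (B (fderiv ℝ (fderiv ℝ Ψ) (t, x) (0, v) (1, 0)) (fderiv ℝ (ψ t) x u) +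
          B (fderiv ℝ (ψ t) x v) (fderiv ℝ (fderiv ℝ Ψ) (t, x) (0, u) (1, 0))) t :=
      (B.hasFDerivAt.comp_hasDerivAt t hv).clm_apply hu
    have h3 := h1.sub h2
    have e : (fun s => omega (fderiv ℝ (ψ s) x u) (fderiv ℝ (ψ s) x v)) =
        (fun s => B (fderiv ℝ (ψ s) x u) (fderiv ℝ (ψ s) x v)) -
          (fun s => B (fderiv ℝ (ψ s) x v) (fderiv ℝ (ψ s) x u)) := by
      ext s; rw [← B_sub]; rfl
    rw [e]
    refine h3.congr_deriv ?_
    have m1 := hmix t x u (fderiv ℝ (ψ t) x v)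
    have m2 := hmix t x v (fderiv ℝ (ψ t) x u)
    rw [← B_sub] at m1 m2
    have hsym : fderiv ℝ (fderiv ℝ (H t)) (ψ t x) (fderiv ℝ (ψ t) x u) (fderiv ℝ (ψ t) x v) =
        fderiv ℝ (fderiv ℝ (H t)) (ψ t x) (fderiv ℝ (ψ t) x v) (fderiv ℝ (ψ t) x u) :=
      ((hHt t).contDiffAt.isSymmSndFDerivAt (by
          simp only [minSmoothness_of_isRCLikeNormedField]
          exact WithTop.coe_le_coe.2 le_top)).eq _ _
    linarith
  have hfin := is_const_of_deriv_eq_zero (fun s => (hconst s).differentiableAt)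
    (fun s => (hconst s).deriv) t 0
  rw [hfin]
  have : (ψ 0 : V → V) = id := by ext1 y; exact h0 y
  rw [this, fderiv_id]
  rfl

theorem omega_nondeg {u : V} (h : ∀ v, omega u v = 0) : u = 0 := by
  have h1 := h (1, 0, 0)
  have h2 := h (Complex.I, 0, 0)
  have h3 := h (0, 1, 0)
  have h4 := h (0, Complex.I, 0)
  have h5 := h (0, 0, 1)
  have h6 := h (0, 0, Complex.I)
  simp [omega] at h1 h2 h3 h4 h5 h6
  exact Prod.ext (Complex.ext h2 h1) (Prod.ext (Complex.ext h4 h3) (Complex.ext h6 h5))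

theorem isHam_symp {φ : V ≃ V} (h : IsHam φ) : ContDiff ℝ ∞ φ ∧ ContDiff ℝ ∞ φ.symm ∧
    ∀ x u v, omega (fderiv ℝ φ x u) (fderiv ℝ φ x v) = omega u v := by
  obtain ⟨H, ψ, hH, -, hψ, hf, h0, h1⟩ := h
  have e : φ = ψ 1 := by ext1 x; exact (h1 x).symm
  have hs : ContDiff ℝ ∞ φ := by
    rw [e]; exact hψ.comp ((contDiff_const (c := (1 : ℝ))).prodMk contDiff_id)
  have hω : ∀ x u v, omega (fderiv ℝ φ x u) (fderiv ℝ φ x v) = omega u v := by
    rw [e]; exact flow_symplectic hH hψ hf h0 1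
  refine ⟨hs, ?_, hω⟩
  refine Pool.Agent.Q130.SC.contDiff_symm_of_equiv φ hs fun x => ?_
  obtain ⟨f', hf'⟩ := Pool.Agent.Q130.SC.exists_equiv_of_injective (fderiv ℝ φ x) fun u hu => by
    refine omega_nondeg fun v => ?_
    rw [← hω x u v, hu]
    simp [omega]
  refine ⟨f', ?_⟩
  rw [hf']
  exact ((hs.differentiable (by simp)) x).hasFDerivAt

end Pool.Agent.Q130.UP
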