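import Pool.Agent.Q130.UP.Core

set_option autoImplicit false

open Set Filter Topology
open scoped ContDiff ComplexConjugate

noncomputable section

namespace Pool.Agent.Q130.UP

/-- `ψ` is `C¹`-close to the identity on the torus bundle -/
def Close (ψ : V → V) : Prop := ∀ q : ℝ × ℝ × ℝ, |q.2.2| ≤ 1 / 2 →
  ‖ψ (io q) - io q‖ ≤ 1 / 100 ∧ ∀ v : V, ‖fderiv ℝ ψ (io q) v - v‖ ≤ 1 / 100 * ‖v‖

theorem norm_u (x : ℝ) : ‖Complex.exp (x * Complex.I)‖ = 1 := Complex.norm_exp_ofReal_mul_I x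

theorem norm_u' (x : ℝ) : ‖Complex.exp (-(x * Complex.I))‖ = 1 := by
  have : -((x : ℂ) * Complex.I) = ((-x : ℝ) : ℂ) * Complex.I := by push_cast; ring
  rw [this]; exact norm_u _

theorem fst_le (v : V) : ‖v.1‖ ≤ ‖v‖ := norm_fst_le v
theorem snd_le (v : V) : ‖v.2.1‖ ≤ ‖v‖ := (norm_fst_le v.2).trans (norm_snd_le v)
theorem thd_le (v : V) : ‖v.2.2‖ ≤ ‖v‖ := (norm_snd_le v.2).trans (norm_snd_le v)

section

variable {ψ : V → V} (hc : Close ψ) {q : ℝ × ℝ × ℝ} (hq : |q.2.2| ≤ 1 / 2)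

include hc hq

theorem near1 : ‖(ψ (io q)).1 - Complex.exp (q.1 * Complex.I)‖ ≤ 1 / 100 :=
  (fst_le (ψ (io q) - io q)).trans (hc q hq).1

theorem near2 : ‖(ψ (io q)).2.1 - 2 * Complex.exp (q.2.1 * Complex.I)‖ ≤ 1 / 100 :=
  (snd_le (ψ (io q) - io q)).trans (hc q hq).1

theorem near3 : ‖(ψ (io q)).2.2 - (q.2.2 : ℂ)‖ ≤ 1 / 100 :=
  (thd_le (ψ (io q) - io q)).trans (hc q hq).1

theorem slit1 : W1 ψ q ∈ Complex.slitPlane := by
  have h : ‖W1 ψ q - 1‖ ≤ 1 / 100 := by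
    have e : W1 ψ q - 1 = ((ψ (io q)).1 - Complex.exp (q.1 * Complex.I)) *
        Complex.exp (-(q.1 * Complex.I)) := by
      rw [sub_mul, ← Complex.exp_add, add_neg_cancel, Complex.exp_zero]; rfl
    rw [e, norm_mul, norm_u', mul_one]
    exact near1 hc hq
  refine Or.inl ?_
  have h2 := (Complex.abs_re_le_norm (W1 ψ q - 1)).trans h
  rw [Complex.sub_re, Complex.one_re] at h2
  linarith [(abs_le.1 h2).1]

theorem slit2 : W2 ψ q ∈ Complex.slitPlane := by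
  have h : ‖W2 ψ q - 2‖ ≤ 1 / 100 := by
    have e : W2 ψ q - 2 = ((ψ (io q)).2.1 - 2 * Complex.exp (q.2.1 * Complex.I)) *
        Complex.exp (-(q.2.1 * Complex.I)) := by
      rw [sub_mul, mul_assoc, ← Complex.exp_add, add_neg_cancel, Complex.exp_zero, mul_one]; rfl
    rw [e, norm_mul, norm_u', mul_one]
    exact near2 hc hq
  refine Or.inl ?_
  have h2 := (Complex.abs_re_le_norm (W2 ψ q - 2)).trans h
  rw [Complex.sub_re, Complex.re_ofNat] at h2
  linarith [(abs_le.1 h2).1]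

theorem nearS : |(ψ (io q)).2.2.re - q.2.2| ≤ 1 / 100 := by
  have h2 := (Complex.abs_re_le_norm ((ψ (io q)).2.2 - (q.2.2 : ℂ))).trans (near3 hc hq)
  rwa [Complex.sub_re, Complex.ofReal_re] at h2

theorem nearT : |(ψ (io q)).2.2.im| ≤ 1 / 100 := by
  have h2 := (Complex.abs_im_le_norm ((ψ (io q)).2.2 - (q.2.2 : ℂ))).trans (near3 hc hq)
  rwa [Complex.sub_im, Complex.ofReal_im, sub_zero] at h2

end

theorem io_add (q : ℝ × ℝ × ℝ) (k l : ℤ) :
    io (q.1 + k • (2 * Real.pi), q.2.1 + l • (2 * Real.pi), q.2.2) = io q := by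
  have h (x : ℝ) (m : ℤ) : Complex.exp (((x + m • (2 * Real.pi) : ℝ) : ℂ) * Complex.I) =
      Complex.exp (x * Complex.I) := by
    have e : ((x + m • (2 * Real.pi) : ℝ) : ℂ) * Complex.I =
        x * Complex.I + m * (2 * Real.pi * Complex.I) := by
      push_cast [zsmul_eq_mul]; ring
    rw [e, Complex.exp_add, Complex.exp_int_mul_two_pi_mul_I, mul_one]
  unfold io
  rw [h, h]

theorem exp_neg_add (x : ℝ) (m : ℤ) :
    Complex.exp (-(((x + m • (2 * Real.pi) : ℝ) : ℂ) * Complex.I)) =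
      Complex.exp (-(x * Complex.I)) := by
  have e : -(((x + m • (2 * Real.pi) : ℝ) : ℂ) * Complex.I) =
      -(x * Complex.I) + (-m : ℤ) * (2 * Real.pi * Complex.I) := by
    push_cast [zsmul_eq_mul]; ring
  rw [e, Complex.exp_add, Complex.exp_int_mul_two_pi_mul_I, mul_one]

theorem G_add (ψ : V → V) (F : V → ℝ) (q : ℝ × ℝ × ℝ) (k l : ℤ) :
    G ψ F (q.1 + k • (2 * Real.pi), q.2.1 + l • (2 * Real.pi), q.2.2) = G ψ F q := by
  unfold G W1 W2
  rw [io_add]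
  simp only [exp_neg_add]

theorem im_diff (Z w Z0 w0 : ℂ) : |(conj Z * w).im - (conj Z0 * w0).im| ≤
    ‖Z‖ * ‖w - w0‖ + ‖Z - Z0‖ * ‖w0‖ := by
  have e : (conj Z * w).im - (conj Z0 * w0).im =
      (conj Z * (w - w0) + conj (Z - Z0) * w0).im := by
    rw [← Complex.sub_im]; congr 1; rw [map_sub]; ring
  rw [e]
  refine (Complex.abs_im_le_norm _).trans ((norm_add_le _ _).trans ?_)
  rw [norm_mul, norm_mul, Complex.norm_conj, Complex.norm_conj]

theorem lin_bd {x y z a b c A B' C : ℝ} (h : x * a + y * b + z * c = 0) (hA : 0 ≤ A)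
    (ha : A ≤ a) (hb : |b| ≤ B') (hc : |c| ≤ C) : A * |x| ≤ B' * |y| + C * |z| := by
  have h1 : |x * a| = |y * b + z * c| := by
    have : x * a = -(y * b + z * c) := by linarith
    rw [this, abs_neg]
  rw [abs_mul, abs_of_nonneg (hA.trans ha)] at h1
  have h2 : |y * b + z * c| ≤ |y| * |b| + |z| * |c| := by
    refine (abs_add_le _ _).trans ?_
    rw [abs_mul, abs_mul]
  have h3 : A * |x| ≤ |x| * a := by
    rw [mul_comm]; exact mul_le_mul_of_nonneg_left ha (abs_nonneg _)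
  have h4 : |y| * |b| ≤ B' * |y| := by
    rw [mul_comm]; exact mul_le_mul_of_nonneg_right hb (abs_nonneg _)
  have h5 : |z| * |c| ≤ C * |z| := by
    rw [mul_comm]; exact mul_le_mul_of_nonneg_right hc (abs_nonneg _)
  linarith

/-- the third real coordinate of the image -/
def Sf (ψ : V → V) (q : ℝ × ℝ × ℝ) : ℝ := (ψ (io q)).2.2.re

theorem contDiff_Sf {ψ : V → V} (hψ : ContDiff ℝ ∞ ψ) : ContDiff ℝ ∞ (Sf ψ) :=
  Complex.reCLM.contDiff.comp (contDiff_snd.comp (contDiff_snd.comp (hψ.comp contDiff_io)))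

theorem fderiv_Sf {ψ : V → V} (hψ : ContDiff ℝ ∞ ψ) (q v : ℝ × ℝ × ℝ) :
    fderiv ℝ (Sf ψ) q v = (dZ ψ q v).2.2.re := by
  have hG : HasFDerivAt (Sf ψ) (fderiv ℝ (Sf ψ) q) (ln q v 0) := by
    rw [ln_zero]
    exact (((contDiff_Sf hψ).differentiable (by simp)) q).hasFDerivAt
  have hL := hG.comp_hasDerivAt (0 : ℝ) (hasDerivAt_ln q v)
  have hR : HasDerivAt (fun t => (ψ (io (ln q v t))).2.2.re) (dZ ψ q v).2.2.re 0 :=
    X3.hasFDerivAt.comp_hasDerivAt (0 : ℝ) (hasDerivAt_Z hψ q v)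
  exact hL.unique hR

/-- **Intersection lemma.** -/
theorem exists_inter {ψ : V → V} (hψ : ContDiff ℝ ∞ ψ)
    (hs : ∀ x u v, omega (fderiv ℝ ψ x u) (fderiv ℝ ψ x v) = omega u v) (hc : Close ψ) :
    ∃ q : ℝ × ℝ × ℝ, |q.2.2| ≤ 1 / 2 ∧ Complex.normSq (ψ (io q)).1 = 1 ∧
      Complex.normSq (ψ (io q)).2.1 = 4 ∧ (ψ (io q)).2.2.re = 0 ∧
      |(ψ (io q)).2.2.im| ≤ 1 / 100 := by
  obtain ⟨F, hF, hF'⟩ := exists_primitive ψ hψ hs
  have hScont : Continuous (Sf ψ) := (contDiff_Sf hψ).continuous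
  set P : Set (ℝ × ℝ × ℝ) := Icc 0 (2 * Real.pi) ×ˢ (Icc 0 (2 * Real.pi) ×ˢ Icc (-(1 / 2)) (1 / 2))
    with hP
  have hPc : IsCompact P := isCompact_Icc.prod (isCompact_Icc.prod isCompact_Icc)
  have hCc : IsCompact (P ∩ Sf ψ ⁻¹' {0}) := hPc.inter_right (isClosed_singleton.preimage hScont)
  have hpi := Real.pi_pos
  have hne : (P ∩ Sf ψ ⁻¹' {0}).Nonempty := by
    have hcont : ContinuousOn (fun s : ℝ => Sf ψ (0, 0, s)) (Icc (-(1 / 2)) (1 / 2)) :=
      (hScont.comp (by fun_prop : Continuous fun s : ℝ => ((0 : ℝ), (0 : ℝ), s))).continuousOn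
    have h1 : |Sf ψ (0, 0, -(1 / 2)) - (-(1 / 2))| ≤ 1 / 100 :=
      nearS hc (q := (0, 0, -(1 / 2))) (by simp [abs_of_pos])
    have h2 : |Sf ψ (0, 0, 1 / 2) - 1 / 2| ≤ 1 / 100 :=
      nearS hc (q := (0, 0, 1 / 2)) (by simp [abs_of_pos])
    have h3 := intermediate_value_Icc (by norm_num : (-(1 / 2) : ℝ) ≤ 1 / 2) hcont
    have h4 : (0 : ℝ) ∈ Icc (Sf ψ (0, 0, -(1 / 2))) (Sf ψ (0, 0, 1 / 2)) :=
      ⟨by linarith [(abs_le.1 h1).2], by linarith [(abs_le.1 h2).1]⟩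
    obtain ⟨s, hs1, hs2⟩ := h3 h4
    exact ⟨(0, 0, s), ⟨⟨le_rfl, by positivity⟩, ⟨le_rfl, by positivity⟩, hs1⟩, hs2⟩
  have habs : ∀ q ∈ P, |q.2.2| ≤ 1 / 2 := fun q hq => abs_le.2 hq.2.2
  have hGc : ContinuousOn (G ψ F) (P ∩ Sf ψ ⁻¹' {0}) := fun q hq =>
    (contDiffAt_G hψ hF (slit1 hc (habs q hq.1)) (slit2 hc (habs q
      hq.1))).continuousAt.continuousWithinAt
  obtain ⟨q, hqC, hmax⟩ := hCc.exists_isMaxOn hne hGc
  have hq2 : |q.2.2| ≤ 1 / 2 := habs q hqC.1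
  have hS0 : Sf ψ q = 0 := hqC.2
  have hsmall : |q.2.2| ≤ 1 / 100 := by
    have := nearS hc hq2
    change |Sf ψ q - q.2.2| ≤ 1 / 100 at this
    rwa [hS0, zero_sub, abs_neg] at this
  have hext : IsLocalExtrOn (G ψ F) {x | Sf ψ x = Sf ψ q} q := by
    refine Or.inr ?_
    have hev : ∀ᶠ x : ℝ × ℝ × ℝ in 𝓝 q, |x.2.2| < 1 / 2 := by
      have : Continuous (fun x : ℝ × ℝ × ℝ => |x.2.2|) := by fun_prop
      exact this.tendsto q |>.eventually_lt_const (by linarith)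
    refine ((eventually_nhdsWithin_of_eventually_nhds hev).and self_mem_nhdsWithin).mono ?_
    · rintro x ⟨hx1, hx2⟩
      have hx2' : Sf ψ x = 0 := by
        have : Sf ψ x = Sf ψ q := hx2
        rw [this, hS0]
      obtain ⟨k, hk, -⟩ := existsUnique_add_zsmul_mem_Ico (by positivity : (0 : ℝ) < 2 * Real.pi)
        x.1 0
      obtain ⟨l, hl, -⟩ := existsUnique_add_zsmul_mem_Ico (by positivity : (0 : ℝ) < 2 * Real.pi)
        x.2.1 0
      have hmem : (x.1 + k • (2 * Real.pi), x.2.1 + l • (2 * Real.pi), x.2.2) ∈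
          P ∩ Sf ψ ⁻¹' {0} := by
        refine ⟨⟨?_, ?_, abs_le.1 hx1.le⟩, ?_⟩
        · exact ⟨hk.1, by simpa using hk.2.le⟩
        · exact ⟨hl.1, by simpa using hl.2.le⟩
        · change Sf ψ _ = 0
          unfold Sf at hx2' ⊢
          rw [io_add]; exact hx2'
      have := hmax hmem
      change G ψ F _ ≤ G ψ F q at this
      rwa [G_add] at this
  have hG1 := contDiffAt_G hψ hF (slit1 hc hq2) (slit2 hc hq2)
  obtain ⟨a, b, hab, hlin⟩ := hext.exists_multipliers_of_hasStrictFDerivAt_1d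
    ((contDiff_Sf hψ).contDiffAt.hasStrictFDerivAt (by simp)) (hG1.hasStrictFDerivAt (by simp))
  set κ1 : ℝ := 1 / 2 - 1 / 2 / Complex.normSq (ψ (io q)).1 with hκ1
  set κ2 : ℝ := 1 / 2 - 2 / Complex.normSq (ψ (io q)).2.1 with hκ2
  have key : ∀ v : ℝ × ℝ × ℝ, a * (dZ ψ q v).2.2.re +
      (b * κ1) * (conj (ψ (io q)).1 * (dZ ψ q v).1).im +
      (b * κ2) * (conj (ψ (io q)).2.1 * (dZ ψ q v).2.1).im = 0 := by
    intro v
    have h := congrArg (fun L : (ℝ × ℝ × ℝ) →L[ℝ] ℝ => L v) hlin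
    have h' : a * fderiv ℝ (Sf ψ) q v + b * fderiv ℝ (G ψ F) q v = 0 := by simpa using h
    rw [fderiv_Sf hψ, fderiv_G hψ hF hF' (slit1 hc hq2) (slit2 hc hq2)] at h'
    have e : (ψ (io q)).2.2.re = 0 := hS0
    rw [e, zero_mul, add_zero] at h'
    rw [← hκ1, ← hκ2] at h'
    linarith
  -- estimates
  have n1 := near1 hc hq2
  have n2 := near2 hc hq2
  have m1 : ‖(ψ (io q)).1‖ ≤ 101 / 100 := by
    have := norm_add_le ((ψ (io q)).1 - Complex.exp (q.1 * Complex.I)) (Complex.exp (q.1 * Complex.I))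
    rw [sub_add_cancel, norm_u] at this
    linarith
  have n2u : ‖2 * Complex.exp (q.2.1 * Complex.I)‖ = 2 := by
    rw [norm_mul, norm_u, mul_one]; simp
  have m2 : ‖(ψ (io q)).2.1‖ ≤ 201 / 100 := by
    have := norm_add_le ((ψ (io q)).2.1 - 2 * Complex.exp (q.2.1 * Complex.I))
      (2 * Complex.exp (q.2.1 * Complex.I))
    rw [sub_add_cancel, n2u] at this
    linarith
  have hd := (hc q hq2).2
  have d1 : dio q (1, 0, 0) = (Complex.exp (q.1 * Complex.I) * Complex.I, 0, 0) := by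
    simp [dio]
  have d2 : dio q (0, 1, 0) = (0, 2 * (Complex.exp (q.2.1 * Complex.I) * Complex.I), 0) := by
    simp [dio]
  have d3 : dio q (0, 0, 1) = (0, 0, 1) := by
    simp [dio]
  have N1 : ‖dio q (1, 0, 0)‖ = 1 := by
    rw [d1, Prod.norm_def, Prod.norm_def]
    simp
  have N2 : ‖dio q (0, 1, 0)‖ = 2 := by
    rw [d2, Prod.norm_def, Prod.norm_def]
    simp
  have N3 : ‖dio q (0, 0, 1)‖ = 1 := by
    rw [d3, Prod.norm_def, Prod.norm_def]
    simp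
  have D1 := hd (dio q (1, 0, 0))
  have D2 := hd (dio q (0, 1, 0))
  have D3 := hd (dio q (0, 0, 1))
  rw [N1] at D1
  rw [N2] at D2
  rw [N3] at D3
  change ‖dZ ψ q (1, 0, 0) - dio q (1, 0, 0)‖ ≤ _ at D1
  change ‖dZ ψ q (0, 1, 0) - dio q (0, 1, 0)‖ ≤ _ at D2
  change ‖dZ ψ q (0, 0, 1) - dio q (0, 0, 1)‖ ≤ _ at D3
  rw [d1] at D1
  rw [d2] at D2
  rw [d3] at D3
  have c11 := (fst_le _).trans D1
  have c12 := (snd_le _).trans D1
  have c13 := (thd_le _).trans D1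
  have c21 := (fst_le _).trans D2
  have c22 := (snd_le _).trans D2
  have c23 := (thd_le _).trans D2
  have c31 := (fst_le _).trans D3
  have c32 := (snd_le _).trans D3
  have c33 := (thd_le _).trans D3
  simp only [Prod.fst_sub, Prod.snd_sub, sub_zero] at c11 c12 c13 c21 c22 c23 c31 c32 c33
  have hb (Z w : ℂ) : |(conj Z * w).im| ≤ ‖Z‖ * ‖w‖ := by
    refine (Complex.abs_im_le_norm _).trans ?_
    rw [norm_mul, Complex.norm_conj]
  have hb' (Z w : ℂ) {r s t : ℝ} (h1 : ‖Z‖ ≤ r) (h2 : ‖w‖ ≤ s) (h3 : r * s ≤ t) :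
      |(conj Z * w).im| ≤ t := by
    refine (hb Z w).trans (le_trans ?_ h3)
    exact mul_le_mul h1 h2 (norm_nonneg _) ((norm_nonneg _).trans h1)
  have A12 := hb' _ _ m2 c12 (show (201 / 100 : ℝ) * (1 / 100 * 1) ≤ 3 / 100 by norm_num)
  have A21 := hb' _ _ m1 c21 (show (101 / 100 : ℝ) * (1 / 100 * 2) ≤ 3 / 100 by norm_num)
  have A31 := hb' _ _ m1 c31 (show (101 / 100 : ℝ) * (1 / 100 * 1) ≤ 3 / 100 by norm_num)
  have A32 := hb' _ _ m2 c32 (show (201 / 100 : ℝ) * (1 / 100 * 1) ≤ 3 / 100 by norm_num)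
  have A11 : 97 / 100 ≤ (conj (ψ (io q)).1 * (dZ ψ q (1, 0, 0)).1).im := by
    have h := im_diff (ψ (io q)).1 (dZ ψ q (1, 0, 0)).1 (Complex.exp (q.1 * Complex.I))
      (Complex.exp (q.1 * Complex.I) * Complex.I)
    have e : (conj (Complex.exp (q.1 * Complex.I)) *
        (Complex.exp (q.1 * Complex.I) * Complex.I)).im = 1 := by
      rw [← mul_assoc, ← Complex.normSq_eq_conj_mul_self, Complex.normSq_eq_norm_sq, norm_u]
      simp
    have e2 : ‖Complex.exp (q.1 * Complex.I) * Complex.I‖ = 1 := by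
      rw [norm_mul, norm_u]; simp
    rw [e, e2] at h
    have h2 : ‖(ψ (io q)).1‖ * ‖(dZ ψ q (1, 0, 0)).1 - Complex.exp (q.1 * Complex.I) * Complex.I‖
        ≤ 101 / 100 * (1 / 100 * 1) := mul_le_mul m1 c11 (norm_nonneg _) (by norm_num)
    linarith [(abs_le.1 h).1]
  have A22 : 39 / 10 ≤ (conj (ψ (io q)).2.1 * (dZ ψ q (0, 1, 0)).2.1).im := by
    have h := im_diff (ψ (io q)).2.1 (dZ ψ q (0, 1, 0)).2.1 (2 * Complex.exp (q.2.1 * Complex.I))
      (2 * (Complex.exp (q.2.1 * Complex.I) * Complex.I))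
    have e : (conj (2 * Complex.exp (q.2.1 * Complex.I)) *
        (2 * (Complex.exp (q.2.1 * Complex.I) * Complex.I))).im = 4 := by
      have e1 : 2 * (Complex.exp (q.2.1 * Complex.I) * Complex.I) =
        (2 * Complex.exp (q.2.1 * Complex.I)) * Complex.I := by ring
      rw [e1, ← mul_assoc, ← Complex.normSq_eq_conj_mul_self, Complex.normSq_eq_norm_sq, n2u]
      norm_num
    have e2 : ‖2 * (Complex.exp (q.2.1 * Complex.I) * Complex.I)‖ = 2 := by
      rw [norm_mul, norm_mul, norm_u]; simp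
    rw [e, e2] at h
    have h2 : ‖(ψ (io q)).2.1‖ *
        ‖(dZ ψ q (0, 1, 0)).2.1 - 2 * (Complex.exp (q.2.1 * Complex.I) * Complex.I)‖
        ≤ 201 / 100 * (1 / 100 * 2) := mul_le_mul m2 c22 (norm_nonneg _) (by norm_num)
    linarith [(abs_le.1 h).1]
  have S1 : |(dZ ψ q (1, 0, 0)).2.2.re| ≤ 3 / 100 :=
    ((Complex.abs_re_le_norm _).trans c13).trans (by norm_num)
  have S2 : |(dZ ψ q (0, 1, 0)).2.2.re| ≤ 3 / 100 :=
    ((Complex.abs_re_le_norm _).trans c23).trans (by norm_num)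
  have S3 : 99 / 100 ≤ (dZ ψ q (0, 0, 1)).2.2.re := by
    have h := (Complex.abs_re_le_norm _).trans c33
    rw [Complex.sub_re, Complex.one_re] at h
    linarith [(abs_le.1 h).1]
  have E3 := lin_bd (key (0, 0, 1)) (by norm_num) S3 A31 A32
  have E1 := lin_bd (x := b * κ1) (y := a) (z := b * κ2) (by linarith [key (1, 0, 0)])
    (by norm_num) A11 S1 A12
  have E2 := lin_bd (x := b * κ2) (y := a) (z := b * κ1) (by linarith [key (0, 1, 0)])
    (by norm_num) A22 S2 A21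
  have p0 := abs_nonneg a
  have p1 := abs_nonneg (b * κ1)
  have p2 := abs_nonneg (b * κ2)
  have z0 : a = 0 := abs_eq_zero.1 (by linarith)
  have z1 : b * κ1 = 0 := abs_eq_zero.1 (by linarith)
  have z2 : b * κ2 = 0 := abs_eq_zero.1 (by linarith)
  have hb0 : b ≠ 0 := fun h => hab (by rw [z0, h]; rfl)
  have k1 : κ1 = 0 := (mul_eq_zero.1 z1).resolve_left hb0
  have k2 : κ2 = 0 := (mul_eq_zero.1 z2).resolve_left hb0
  have nz1 : Complex.normSq (ψ (io q)).1 ≠ 0 := fun h => by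
    rw [hκ1, h] at k1; norm_num at k1
  have nz2 : Complex.normSq (ψ (io q)).2.1 ≠ 0 := fun h => by
    rw [hκ2, h] at k2; norm_num at k2
  refine ⟨q, hq2, ?_, ?_, hS0, nearT hc hq2⟩
  · rw [hκ1] at k1
    field_simp at k1
    linarith
  · rw [hκ2] at k2
    field_simp at k2
    linarith

end Pool.Agent.Q130.UP
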