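import Pool.Agent.Q130.UP.Ham

set_option autoImplicit false

open Set Filter Topology
open scoped ContDiff ComplexConjugate

noncomputable section

namespace Pool.Agent.Q130.UP

/-- close in `C¹` on a compact set implies that `φ⁻¹ χ` is close to the identity -/
theorem close_of_close {K : Set V} (hK : IsCompact K) (φ : V ≃ V) (h1 : ContDiff ℝ ∞ φ)
    (h2 : ContDiff ℝ ∞ φ.symm) {e : ℝ} (he : 0 < e) :
    ∃ d : ℝ, 0 < d ∧ ∀ χ : V ≃ V, ContDiff ℝ ∞ χ →
      (∀ x ∈ K, dist (χ x) (φ x) < d ∧ dist (fderiv ℝ χ x) (fderiv ℝ φ x) < d) →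
      ∀ x ∈ K, ‖(χ.trans φ.symm) x - x‖ ≤ e ∧
        ∀ v, ‖fderiv ℝ (χ.trans φ.symm) x v - v‖ ≤ e * ‖v‖ := by
  have hKc : IsCompact (φ '' K) := hK.image h1.continuous
  -- bounds
  obtain ⟨C, hC⟩ := hK.exists_bound_of_continuousOn
    (h1.continuous_fderiv (by simp)).continuousOn
  obtain ⟨C', hC'⟩ := hKc.exists_bound_of_continuousOn
    (h2.continuous_fderiv (by simp)).continuousOn
  set M : ℝ := max C 1 with hM
  set M' : ℝ := max C' 0 + 1 with hM'
  have hMp : 0 < M := lt_max_of_lt_right one_pos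
  have hM'p : 0 < M' := by positivity
  set e' : ℝ := min (e / (2 * M)) 1 with he'
  have he'p : 0 < e' := by positivity
  have u1 := hKc.uniformContinuousAt_of_continuousAt φ.symm
    (fun a _ => h2.continuous.continuousAt) (Metric.dist_mem_uniformity he)
  have u2 := hKc.uniformContinuousAt_of_continuousAt (fderiv ℝ φ.symm)
    (fun a _ => (h2.continuous_fderiv (by simp)).continuousAt) (Metric.dist_mem_uniformity he'p)
  obtain ⟨d1, hd1, hd1'⟩ := Metric.mem_uniformity_dist.1 u1
  obtain ⟨d2, hd2, hd2'⟩ := Metric.mem_uniformity_dist.1 u2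
  refine ⟨min (min d1 d2) (e / (2 * M')), by positivity, fun χ hχ hclose x hx => ?_⟩
  obtain ⟨c1, c2⟩ := hclose x hx
  have hφx : φ x ∈ φ '' K := mem_image_of_mem _ hx
  have c1' : dist (φ x) (χ x) < d1 := by
    rw [dist_comm]; exact c1.trans_le ((min_le_left _ _).trans (min_le_left _ _))
  have c1'' : dist (φ x) (χ x) < d2 := by
    rw [dist_comm]; exact c1.trans_le ((min_le_left _ _).trans (min_le_right _ _))
  have c3 : dist (φ.symm (φ x)) (φ.symm (χ x)) < e := hd1' c1' hφx
  have c4 : dist (fderiv ℝ φ.symm (φ x)) (fderiv ℝ φ.symm (χ x)) < e' := hd2' c1'' hφx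
  rw [Equiv.symm_apply_apply] at c3
  refine ⟨?_, fun v => ?_⟩
  · rw [← dist_eq_norm, dist_comm]
    exact c3.le
  · have e1 : fderiv ℝ (χ.trans φ.symm) x = (fderiv ℝ φ.symm (χ x)).comp (fderiv ℝ χ x) :=
      fderiv_comp x ((h2.differentiable (by simp)) _) ((hχ.differentiable (by simp)) _)
    have e2 : (fderiv ℝ φ.symm (φ x)).comp (fderiv ℝ φ x) = ContinuousLinearMap.id ℝ V := by
      rw [← fderiv_comp x ((h2.differentiable (by simp)) _) ((h1.differentiable (by simp)) _)]
      have : (φ.symm ∘ φ : V → V) = id := by ext1 w; simp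
      rw [this, fderiv_id]
    have e3 : fderiv ℝ (χ.trans φ.symm) x v - v =
        fderiv ℝ φ.symm (χ x) ((fderiv ℝ χ x - fderiv ℝ φ x) v) +
        (fderiv ℝ φ.symm (χ x) - fderiv ℝ φ.symm (φ x)) (fderiv ℝ φ x v) := by
      have e4 : fderiv ℝ φ.symm (φ x) (fderiv ℝ φ x v) = v := by
        have := congrArg (fun L : V →L[ℝ] V => L v) e2
        simpa using this
      rw [e1]
      simp only [ContinuousLinearMap.comp_apply, sub_apply, map_sub]
      rw [e4]
      abel
    have b1 : ‖fderiv ℝ φ.symm (χ x)‖ ≤ M' := by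
      have h5 : ‖fderiv ℝ φ.symm (φ x)‖ ≤ C' := hC' _ hφx
      have h6 : ‖fderiv ℝ φ.symm (χ x) - fderiv ℝ φ.symm (φ x)‖ ≤ 1 := by
        rw [← dist_eq_norm, dist_comm]; exact c4.le.trans (min_le_right _ _)
      have h7 := norm_add_le (fderiv ℝ φ.symm (χ x) - fderiv ℝ φ.symm (φ x))
        (fderiv ℝ φ.symm (φ x))
      rw [sub_add_cancel] at h7
      have := le_max_left C' 0
      rw [hM']; linarith
    have b2 : ‖fderiv ℝ χ x - fderiv ℝ φ x‖ ≤ e / (2 * M') := by
      rw [← dist_eq_norm]; exact c2.le.trans (min_le_right _ _)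
    have b3 : ‖fderiv ℝ φ.symm (χ x) - fderiv ℝ φ.symm (φ x)‖ ≤ e / (2 * M) := by
      rw [← dist_eq_norm, dist_comm]; exact c4.le.trans (min_le_left _ _)
    have b4 : ‖fderiv ℝ φ x‖ ≤ M := (hC x hx).trans (le_max_left _ _)
    rw [e3]
    refine (norm_add_le _ _).trans ?_
    have t1 : ‖fderiv ℝ φ.symm (χ x) ((fderiv ℝ χ x - fderiv ℝ φ x) v)‖ ≤ e / 2 * ‖v‖ := by
      calc _ ≤ M' * ((e / (2 * M')) * ‖v‖) := by
            refine (ContinuousLinearMap.le_opNorm _ _).trans ?_
            refine mul_le_mul b1 ?_ (norm_nonneg _) hM'p.le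
            exact (ContinuousLinearMap.le_opNorm _ _).trans
              (mul_le_mul_of_nonneg_right b2 (norm_nonneg _))
        _ = e / 2 * ‖v‖ := by field_simp
    have t2 : ‖(fderiv ℝ φ.symm (χ x) - fderiv ℝ φ.symm (φ x)) (fderiv ℝ φ x v)‖ ≤
        e / 2 * ‖v‖ := by
      calc _ ≤ (e / (2 * M)) * (M * ‖v‖) := by
            refine (ContinuousLinearMap.le_opNorm _ _).trans ?_
            refine mul_le_mul b3 ?_ (norm_nonneg _) (by positivity)
            exact (ContinuousLinearMap.le_opNorm _ _).trans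
              (mul_le_mul_of_nonneg_right b4 (norm_nonneg _))
        _ = e / 2 * ‖v‖ := by field_simp
    linarith

/-- every family of symplectomorphisms with disjoint images of `K` is countable, if `K` is compact,
contains the torus bundle and contains every point with `|z₁| = 1`, `|z₂| = 2`, `Re z₃ = 0`,
`|Im z₃| ≤ 1/100` -/
theorem countable_of_disjoint {K : Set V} (hK : IsCompact K)
    (hK1 : ∀ q : ℝ × ℝ × ℝ, |q.2.2| ≤ 1 / 2 → io q ∈ K)
    (hK2 : ∀ x : V, Complex.normSq x.1 = 1 → Complex.normSq x.2.1 = 4 → x.2.2.re = 0 →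
      |x.2.2.im| ≤ 1 / 100 → x ∈ K)
    {I : Type*} (φ : I → V ≃ V) (h1 : ∀ i, ContDiff ℝ ∞ (φ i)) (h2 : ∀ i, ContDiff ℝ ∞ (φ i).symm)
    (h3 : ∀ i x u v, omega (fderiv ℝ (φ i) x u) (fderiv ℝ (φ i) x v) = omega u v)
    (hdisj : Pairwise fun i j => Disjoint (φ i '' K) (φ j '' K)) : Countable I := by
  classical
  have : CompactSpace K := isCompact_iff_compactSpace.1 hK
  let J : I → C(K, V) × C(K, V →L[ℝ] V) := fun i =>
    (⟨fun z => φ i z.1, (h1 i).continuous.comp continuous_subtype_val⟩,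
     ⟨fun z => fderiv ℝ (φ i) z.1,
      ((h1 i).continuous_fderiv (by simp)).comp continuous_subtype_val⟩)
  let τ : TopologicalSpace I := TopologicalSpace.induced J inferInstance
  have hτ : @SecondCountableTopology I τ :=
    TopologicalSpace.secondCountableTopology_induced _ _ J
  choose ε hε hcl using fun i => close_of_close hK (φ i) (h1 i) (h2 i)
    (show (0 : ℝ) < 1 / 100 by norm_num)
  let W : I → Set I := fun i => J ⁻¹' Metric.ball (J i) (ε i)
  have hW : ∀ i, W i ∈ @nhds _ τ i := fun i =>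
    @IsOpen.mem_nhds _ τ _ _ ⟨_, Metric.isOpen_ball, rfl⟩ (Metric.mem_ball_self (hε i))
  have hWs : ∀ i, W i ⊆ {i} := by
    intro i j hj
    by_contra hij
    have hij' : i ≠ j := fun h => hij (by rw [h]; rfl)
    have hd := hdisj hij'
    have h4 : dist (J j) (J i) < ε i := hj
    rw [Prod.dist_eq, max_lt_iff] at h4
    have hclose := hcl i (φ j) (h1 j) fun x hx =>
      ⟨(ContinuousMap.dist_apply_le_dist (⟨x, hx⟩ : K)).trans_lt h4.1,
        (ContinuousMap.dist_apply_le_dist (⟨x, hx⟩ : K)).trans_lt h4.2⟩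
    have hsymm : ∀ z u v, omega (fderiv ℝ (φ i).symm z u) (fderiv ℝ (φ i).symm z v) =
        omega u v := fun z u v => by
      have e (u : V) : fderiv ℝ (φ i) ((φ i).symm z) (fderiv ℝ (φ i).symm z u) = u := by
        have h5 : fderiv ℝ (φ i ∘ (φ i).symm) z = (fderiv ℝ (φ i) ((φ i).symm z)).comp
            (fderiv ℝ (φ i).symm z) :=
          fderiv_comp z (((h1 i).differentiable (by simp)) _)
            (((h2 i).differentiable (by simp)) _)
        have h6 : (φ i ∘ (φ i).symm : V → V) = id := by ext1 w; simp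
        rw [h6, fderiv_id] at h5
        have h7 := congrArg (fun L : V →L[ℝ] V => L u) h5
        simpa using h7.symm
      have := h3 i ((φ i).symm z) (fderiv ℝ (φ i).symm z u) (fderiv ℝ (φ i).symm z v)
      rw [e, e] at this
      exact this.symm
    obtain ⟨q, hq, n1, n2, n3, n4⟩ := exists_inter (ψ := (φ j).trans (φ i).symm)
      ((h2 i).comp (h1 j)) (fun z u v => by
        have e : fderiv ℝ ((φ j).trans (φ i).symm) z =
            (fderiv ℝ (φ i).symm (φ j z)).comp (fderiv ℝ (φ j) z) :=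
          fderiv_comp z (((h2 i).differentiable (by simp)) _)
            (((h1 j).differentiable (by simp)) _)
        rw [e]
        change omega (fderiv ℝ (φ i).symm (φ j z) (fderiv ℝ (φ j) z u))
          (fderiv ℝ (φ i).symm (φ j z) (fderiv ℝ (φ j) z v)) = omega u v
        rw [hsymm, h3]) (fun q hq => hclose (io q) (hK1 q hq))
    have hmem : ((φ j).trans (φ i).symm) (io q) ∈ K := hK2 _ n1 n2 n3 n4
    exact (Set.disjoint_left.1 hd) (⟨_, hmem, by simp⟩ : φ j (io q) ∈ φ i '' K)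
      (mem_image_of_mem _ (hK1 q hq))
  obtain ⟨S, hS, hcov⟩ := @TopologicalSpace.countable_cover_nhds _ τ hτ W hW
  have huniv : (univ : Set I) ⊆ S := by
    intro j _
    have h1 : j ∈ ⋃ i ∈ S, W i := by rw [hcov]; trivial
    obtain ⟨i, hi, h2⟩ := mem_iUnion₂.1 h1
    have : j = i := hWs i h2
    rwa [this]
  exact countable_univ_iff.1 (hS.mono huniv)

end Pool.Agent.Q130.UP
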